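import Mathlib
import Pool.Agent.Helper96.Bei.Main

/-!
# Beilinson's conjectures for a threefold and powers of divisors on its blow-ups

The definitions are in `Pool/Agent/Helper81/Smash/Defs.lean` (rational Chow rings),
`Pool/Agent/Helper13/Sq/Defs.lean` (curves in threefolds and blow-ups) and
`Pool/Agent/Helper96/Bei/Defs.lean` (heights).

Proof. Let `x` be a class of codimension 2 homologous to zero on `X` with `L x = 0`. By the theorem of
`MP_bf8edd_ag.ThreefoldSquares` there are an iterated blow-up `f : Y ⟶ X` in points and smooth curves
and a divisor class `D` with `D² = f^* x`; then `f^* L · D² = 0` and `ht (D²) (D²) = ht x x`.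
Zero-cycles are cubes `D³` after blow-ups of points, since `E³` is a point. Conversely, if `y` is a
class of codimension 2 on the blow-up `g : W ⟶ Y`, homologous to zero, then `y = g^* a + c` with
`a = g_* y` and `g_* c = 0`, `ht y y = ht a a + ht c c`, `ht c c ≥ 0` by Neron and Tate, and
`L a = g_* (g^* L · y)`; so the index statement for `(X, L)` passes to all iterated blow-ups `f`
and the classes `f^* L`.
-/

set_option autoImplicit false

open CategoryTheory CategoryTheory.Limits

namespace Pool.Agent.Results.MP_e2c9e7_nt.PowersOnBlowups

open Pool.Agent.Helper81.Smash Pool.Agent.Helper13.Sq Pool.Agent.Helper96.Bei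

universe u v w

/-- Beilinson's Q1 and Q2 for a threefold `X` and an ample class `L` are equivalent to two
statements about the powers `D³` and `D²` of one divisor on the iterated blow-ups of `X`. -/
theorem result {𝒱 : Type u} [Category.{v} 𝒱] [HasFiniteProducts 𝒱] (S : HomCycles.{u, v, w} 𝒱)
    (K : Threefolds S) (hK : K.Standard) (H : Heights S) (hH : H.Standard K)
    (X : 𝒱) (hX : S.dim X = 3) (L : S.A X) (hL : H.Ample L) :
    (H.Lefschetz L ∧ H.Index L) ↔ H.Powers K L :=
  beilinson_iff K hK H hH hX L hL

end Pool.Agent.Results.MP_e2c9e7_nt.PowersOnBlowups
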